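import Mathlib.Data.Real.Basic
import Mathlib.Data.Set.Card
import Mathlib.Algebra.Module.Prod
import Mathlib.Tactic.FinCases
import Mathlib.Tactic.Linarith
import Mathlib.Tactic.NormNum
import Mathlib.Tactic.Ring

set_option autoImplicit false

namespace Pool.Agent.Results.MP_17a11e_co.Fourteen

/-- The line through `p` with direction `v` in the real plane. -/
def line (p v : ℝ × ℝ) : Set (ℝ × ℝ) := {q | ∃ t : ℝ, q = p + t • v}

/-- `S` is admissible for the set `dirs` of line directions and the integer `r`: every line parallel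
to one of the directions either misses `S` or contains exactly `r` points of `S`. -/
def Admissible (dirs : Set (ℝ × ℝ)) (r : ℕ) (S : Set (ℝ × ℝ)) : Prop :=
  ∀ v ∈ dirs, ∀ p : ℝ × ℝ, (S ∩ line p v) = ∅ ∨ (S ∩ line p v).ncard = r

/-- The fourteen integer points. -/
def pts : Finset (ℤ × ℤ) :=
  {(0, 2), (0, 3), (1, 1), (1, 3), (3, 0), (3, 6), (4, 0), (4, 2), (5, 1), (5, 4), (6, 5), (6, 6),
    (7, 4), (7, 5)}

/-- The embedding of the integer points into the real plane. -/
def toReal (q : ℤ × ℤ) : ℝ × ℝ := ((q.1 : ℝ), (q.2 : ℝ))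

theorem toReal_injective : Function.Injective toReal := by
  intro a b h
  simp only [toReal, Prod.mk.injEq, Int.cast_inj] at h
  exact Prod.ext h.1 h.2

theorem key (G : ℤ × ℤ → ℤ) (g : ℝ × ℝ → ℝ) (hg : ∀ q, g (toReal q) = (G q : ℝ))
    (hT : ∀ q ∈ pts, (pts.filter (fun x => G x = G q)).card = 2)
    (p v : ℝ × ℝ) (hl : line p v = {q | g q = g p}) :
    ((toReal '' (pts : Set (ℤ × ℤ))) ∩ line p v) = ∅ ∨
      ((toReal '' (pts : Set (ℤ × ℤ))) ∩ line p v).ncard = 2 := by
  classical
  by_cases h : ((toReal '' (pts : Set (ℤ × ℤ))) ∩ line p v) = ∅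
  · exact Or.inl h
  right
  obtain ⟨x, ⟨q, hq, rfl⟩, hx⟩ := Set.nonempty_iff_ne_empty.2 h
  rw [hl] at hx
  have hx' : (G q : ℝ) = g p := by rw [← hg]; exact hx
  have h1 : ((toReal '' (pts : Set (ℤ × ℤ))) ∩ line p v) =
      toReal '' ((pts.filter (fun x => G x = G q) : Finset (ℤ × ℤ)) : Set (ℤ × ℤ)) := by
    ext y
    simp only [hl, Set.mem_inter_iff, Set.mem_image, Finset.coe_filter, Set.mem_ofPred_eq,
      Finset.mem_coe]
    constructor
    · rintro ⟨⟨z, hz, rfl⟩, hy⟩
      refine ⟨z, ⟨hz, ?_⟩, rfl⟩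
      rw [hg, ← hx'] at hy
      exact_mod_cast hy
    · rintro ⟨z, ⟨hz, hzq⟩, rfl⟩
      refine ⟨⟨z, hz, rfl⟩, ?_⟩
      rw [hg, ← hx', hzq]
  rw [h1, Set.ncard_image_of_injective _ toReal_injective, Set.ncard_coe_finset]
  exact hT q hq

/-- There is a set of 14 points of the plane such that every horizontal, every vertical, every
slope `1` and every slope `-1` line contains either none or exactly two of its points. -/
theorem result : ∃ S : Set (ℝ × ℝ), S.ncard = 14 ∧
    Admissible {((1 : ℝ), (0 : ℝ)), ((0 : ℝ), (1 : ℝ)), ((1 : ℝ), (1 : ℝ)), ((1 : ℝ), (-1 : ℝ))} 2 S := by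
  refine ⟨toReal '' (pts : Set (ℤ × ℤ)), ?_, ?_⟩
  · rw [Set.ncard_image_of_injective _ toReal_injective, Set.ncard_coe_finset]
    decide
  · intro v hv p
    simp only [Set.mem_insert_iff, Set.mem_singleton_iff] at hv
    rcases hv with rfl | rfl | rfl | rfl
    · refine key (fun q => q.2) (fun q => q.2) (fun q => rfl) (by decide) p _ ?_
      ext q
      simp only [line, Set.mem_ofPred_eq]
      constructor
      · rintro ⟨t, rfl⟩; simp
      · intro h; exact ⟨q.1 - p.1, by ext <;> simp [h]⟩
    · refine key (fun q => q.1) (fun q => q.1) (fun q => rfl) (by decide) p _ ?_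
      ext q
      simp only [line, Set.mem_ofPred_eq]
      constructor
      · rintro ⟨t, rfl⟩; simp
      · intro h; exact ⟨q.2 - p.2, by ext <;> simp [h]⟩
    · refine key (fun q => q.1 - q.2) (fun q => q.1 - q.2) (fun q => by simp [toReal]) (by decide)
        p _ ?_
      ext q
      simp only [line, Set.mem_ofPred_eq]
      constructor
      · rintro ⟨t, rfl⟩; simp
      · intro h; exact ⟨q.1 - p.1, by ext <;> simp; linarith⟩
    · refine key (fun q => q.1 + q.2) (fun q => q.1 + q.2) (fun q => by simp [toReal]) (by decide)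
        p _ ?_
      ext q
      simp only [line, Set.mem_ofPred_eq]
      constructor
      · rintro ⟨t, rfl⟩; simp; ring
      · intro h; exact ⟨q.1 - p.1, by ext <;> simp; linarith⟩

end Pool.Agent.Results.MP_17a11e_co.Fourteen
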